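import Pool.Agent.helper62.QU.Spec

/-!
# MP_07c750, row ROD: the radial equation
-/

open scoped ContDiff Topology
open MeasureTheory Filter Set

namespace Pool.Agent.QU

/-- The derivative of `∫_0^1 s^k θ(ts) ds`. -/
theorem ROD_hasDerivAt {θ : ℝ → ℝ} (hθ : ContDiff ℝ ∞ θ) (k : ℕ) (t : ℝ) :
    HasDerivAt (fun t : ℝ => ∫ s in (0 : ℝ)..1, s ^ k * θ (t * s))
      (∫ s in (0 : ℝ)..1, s ^ (k + 1) * deriv θ (t * s)) t := by
  have hd : Differentiable ℝ θ := hθ.differentiable (by simp)
  have hc : Continuous θ := hθ.continuous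
  have hc' : Continuous (deriv θ) := hθ.continuous_deriv (by simp)
  obtain ⟨C, hC⟩ := (isCompact_Icc (a := -(|t| + 1)) (b := |t| + 1)).exists_bound_of_continuousOn
    hc'.continuousOn
  have hF : ∀ x : ℝ, Continuous fun s : ℝ => s ^ k * θ (x * s) := fun x =>
    (continuous_pow k).mul (hc.comp (continuous_const.mul continuous_id))
  have hF' : ∀ x : ℝ, Continuous fun s : ℝ => s ^ (k + 1) * deriv θ (x * s) := fun x =>
    (continuous_pow (k + 1)).mul (hc'.comp (continuous_const.mul continuous_id))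
  refine (intervalIntegral.hasDerivAt_integral_of_dominated_loc_of_deriv_le
    (F := fun x s => s ^ k * θ (x * s)) (F' := fun x s => s ^ (k + 1) * deriv θ (x * s))
    (bound := fun _ => C) (Metric.ball_mem_nhds t one_pos) ?_ ?_ ?_ ?_ ?_ ?_).2
  · exact Eventually.of_forall fun x => (hF x).aestronglyMeasurable
  · exact (hF t).intervalIntegrable _ _
  · exact (hF' t).aestronglyMeasurable
  · refine Eventually.of_forall fun s hs x hx => ?_
    rw [uIoc_of_le zero_le_one] at hs
    have hx1 : |x| ≤ |t| + 1 := by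
      rw [Metric.mem_ball, Real.dist_eq] at hx
      have := abs_sub_abs_le_abs_sub x t
      linarith
    have hxs : |x * s| ≤ |t| + 1 := by
      rw [abs_mul, abs_of_pos hs.1]
      nlinarith [abs_nonneg x, hs.1, hs.2]
    have h1 := hC (x * s) (by
      rw [mem_Icc]
      exact abs_le.1 hxs)
    have h2 : ‖s ^ (k + 1)‖ ≤ 1 := by
      rw [norm_pow, Real.norm_eq_abs, abs_of_pos hs.1]
      exact pow_le_one₀ hs.1.le hs.2
    calc ‖s ^ (k + 1) * deriv θ (x * s)‖ = ‖s ^ (k + 1)‖ * ‖deriv θ (x * s)‖ := norm_mul _ _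
      _ ≤ 1 * C := mul_le_mul h2 h1 (norm_nonneg _) zero_le_one
      _ = C := one_mul C
  · exact continuous_const.intervalIntegrable _ _
  · refine Eventually.of_forall fun s _ x _ => ?_
    have h1 : HasDerivAt (fun x : ℝ => x * s) s x := by
      simpa using (hasDerivAt_id x).mul_const s
    have h2 : HasDerivAt (fun x : ℝ => θ (x * s)) (deriv θ (x * s) * s) x :=
      (hd (x * s)).hasDerivAt.comp x h1
    have h3 := h2.const_mul (s ^ k)
    have e : s ^ k * (deriv θ (x * s) * s) = s ^ (k + 1) * deriv θ (x * s) := by ring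
    rw [e] at h3
    exact h3

theorem ROD_smooth_nat (n : ℕ) : ∀ (θ : ℝ → ℝ), ContDiff ℝ ∞ θ → ∀ k : ℕ,
    ContDiff ℝ n (fun t : ℝ => ∫ s in (0 : ℝ)..1, s ^ k * θ (t * s)) := by
  induction n with
  | zero =>
    intro θ hθ k
    rw [Nat.cast_zero, contDiff_zero]
    have hd : Differentiable ℝ (fun t : ℝ => ∫ s in (0 : ℝ)..1, s ^ k * θ (t * s)) :=
      fun t => (ROD_hasDerivAt hθ k t).differentiableAt
    exact hd.continuous
  | succ n ih =>
    intro θ hθ k
    have e : ((n + 1 : ℕ) : WithTop ℕ∞) = (n : WithTop ℕ∞) + 1 := by push_cast; rfl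
    rw [e, contDiff_succ_iff_deriv]
    refine ⟨fun t => (ROD_hasDerivAt hθ k t).differentiableAt, ?_, ?_⟩
    · intro h
      exact absurd h (by simp)
    · have h1 : deriv (fun t : ℝ => ∫ s in (0 : ℝ)..1, s ^ k * θ (t * s)) =
          fun t : ℝ => ∫ s in (0 : ℝ)..1, s ^ (k + 1) * deriv θ (t * s) := by
        ext t
        exact (ROD_hasDerivAt hθ k t).deriv
      rw [h1]
      have h2 : ContDiff ℝ ∞ (deriv θ) := by
        rw [contDiff_infty_iff_deriv] at hθ
        exact hθ.2
      exact ih (deriv θ) h2 (k + 1)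

theorem ROD_smooth {θ : ℝ → ℝ} (hθ : ContDiff ℝ ∞ θ) :
    ContDiff ℝ ∞ (fun t : ℝ => ∫ s in (0 : ℝ)..1, θ (t * s)) := by
  rw [contDiff_infty]
  intro n
  have h := ROD_smooth_nat n θ hθ 0
  simpa using h

theorem ROD_prim (θ : ℝ → ℝ) (t : ℝ) :
    t * (∫ s in (0 : ℝ)..1, θ (t * s)) = ∫ r in (0 : ℝ)..t, θ r := by
  rw [intervalIntegral.mul_integral_comp_mul_left, mul_zero, mul_one]

/-- smooth cut-off, `0` on `(-∞, -1]` and `1` on `[-1/2, ∞)` -/
noncomputable def ROD_cut (t : ℝ) : ℝ := Real.smoothTransition (2 * t + 2)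

theorem ROD_cut_smooth : ContDiff ℝ ∞ ROD_cut := by
  have h : ContDiff ℝ ∞ Real.smoothTransition := Real.smoothTransition.contDiff
  exact h.comp ((contDiff_const.mul contDiff_id).add contDiff_const)

theorem ROD_cut_zero {t : ℝ} (h : t ≤ -1) : ROD_cut t = 0 :=
  Real.smoothTransition.zero_of_nonpos (by linarith)

theorem ROD_cut_one {t : ℝ} (h : -(1 / 2) ≤ t) : ROD_cut t = 1 :=
  Real.smoothTransition.one_of_one_le (by linarith)

/-- the derivative of the solution -/
noncomputable def ROD_R (θ : ℝ → ℝ) (t : ℝ) : ℝ :=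
  ROD_cut t * ((∫ s in (0 : ℝ)..1, θ (t * s)) / (t + 2))

theorem ROD_R_smooth {θ : ℝ → ℝ} (hθ : ContDiff ℝ ∞ θ) : ContDiff ℝ ∞ (ROD_R θ) := by
  rw [contDiff_iff_contDiffAt]
  intro x
  rcases le_or_gt x (-(3 / 2)) with hx | hx
  · have h1 : ROD_R θ =ᶠ[𝓝 x] fun _ => 0 := by
      filter_upwards [gt_mem_nhds (show x < -1 by linarith)] with y hy
      rw [ROD_R, ROD_cut_zero (le_of_lt hy), zero_mul]
    exact contDiffAt_const.congr_of_eventuallyEq h1
  · have hx0 : x + 2 ≠ 0 := by linarith
    unfold ROD_R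
    refine ROD_cut_smooth.contDiffAt.mul ?_
    exact (ROD_smooth hθ).contDiffAt.div (contDiffAt_id.add contDiffAt_const) hx0

theorem ROD_R_eq (θ : ℝ → ℝ) {t : ℝ} (h : -(1 / 2) ≤ t) :
    t * (t + 2) * ROD_R θ t = ∫ r in (0 : ℝ)..t, θ r := by
  rw [← ROD_prim, ROD_R, ROD_cut_one h]
  have : t + 2 ≠ 0 := by linarith
  field_simp

theorem ROD_R_eq2 (θ : ℝ → ℝ) {t : ℝ} (h : -(1 / 2) ≤ t) :
    ROD_R θ t * t = (∫ r in (0 : ℝ)..t, θ r) / (t + 2) := by
  rw [← ROD_prim, ROD_R, ROD_cut_one h]
  ring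

/-- Row ROD. -/
theorem ROD : ROD_stmt := by
  intro θ s hθ hs hsupp hint
  have hR := ROD_R_smooth hθ
  have hRc : Continuous (ROD_R θ) := hR.continuous
  have hθc : Continuous θ := hθ.continuous
  set ψ : ℝ → ℝ := fun t => ∫ r in s..t, ROD_R θ r with hψ
  have hψd : ∀ t, HasDerivAt ψ (ROD_R θ t) t := fun t =>
    intervalIntegral.integral_hasDerivAt_right (hRc.intervalIntegrable _ _)
      (hRc.stronglyMeasurableAtFilter _ _) hRc.continuousAt
  have hψ' : deriv ψ = ROD_R θ := by
    ext t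
    exact (hψd t).deriv
  have hψs : ContDiff ℝ ∞ ψ := by
    rw [contDiff_infty_iff_deriv]
    refine ⟨fun t => (hψd t).differentiableAt, ?_⟩
    rw [hψ']
    exact hR
  -- the primitive of `θ`
  have hP : ∀ t, HasDerivAt (fun t : ℝ => ∫ r in (0 : ℝ)..t, θ r) (θ t) t := fun t =>
    intervalIntegral.integral_hasDerivAt_right (hθc.intervalIntegrable _ _)
      (hθc.stronglyMeasurableAtFilter _ _) hθc.continuousAt
  have hP0 : ∀ t, s ≤ t → (∫ r in (0 : ℝ)..t, θ r) = 0 := by
    intro t ht
    rw [← intervalIntegral.integral_add_adjacent_intervals (hθc.intervalIntegrable 0 s)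
      (hθc.intervalIntegrable s t), hint, zero_add]
    rw [intervalIntegral.integral_congr (g := fun _ => (0 : ℝ))]
    · simp
    · intro r hr
      rw [uIcc_of_le ht] at hr
      exact hsupp r hr.1
  have hR0 : ∀ t, s ≤ t → ROD_R θ t = 0 := by
    intro t ht
    have h1 := ROD_R_eq θ (t := t) (by linarith)
    rw [hP0 t ht] at h1
    have ht0 : 0 < t := by linarith
    have h2 : t * (t + 2) ≠ 0 := by positivity
    exact (mul_eq_zero.1 h1).resolve_left h2
  have hψ0 : ∀ t, s ≤ t → ψ t = 0 := by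
    intro t ht
    change ∫ r in s..t, ROD_R θ r = 0
    rw [intervalIntegral.integral_congr (g := fun _ => (0 : ℝ))]
    · simp
    · intro r hr
      rw [uIcc_of_le ht] at hr
      exact hR0 r hr.1
  refine ⟨ψ, ⟨hψs, s, hψ0⟩, hψ0, ?_, ?_⟩
  · intro t ht
    unfold LL
    rw [hψ']
    have hRd : HasDerivAt (ROD_R θ) (deriv (ROD_R θ) t) t :=
      (hR.differentiable (by simp) t).hasDerivAt
    have h1 : HasDerivAt (fun t : ℝ => t * (t + 2)) (2 * (t + 1)) t := by
      have h2 := (hasDerivAt_id t).mul ((hasDerivAt_id t).add_const 2)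
      have e : 1 * (id t + 2) + id t * 1 = 2 * (t + 1) := by
        simp only [id]
        ring
      rw [e] at h2
      exact h2
    have h3 := h1.mul hRd
    have h4 : (fun t : ℝ => t * (t + 2) * ROD_R θ t) =ᶠ[𝓝 t]
        fun t : ℝ => ∫ r in (0 : ℝ)..t, θ r := by
      filter_upwards [lt_mem_nhds (show -(1 / 2) < t by linarith)] with r hr
      exact ROD_R_eq θ (le_of_lt hr)
    have h5 : HasDerivAt (fun t : ℝ => t * (t + 2) * ROD_R θ t) (θ t) t :=
      (hP t).congr_of_eventuallyEq h4
    have h6 := h3.unique h5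
    linarith
  · intro c hc
    have hc0 : 0 ≤ c := by
      have h1 := hc s hs.le
      linarith [h1.1, h1.2]
    have hRneg : ∀ t, 0 < t → ROD_R θ t ≤ 0 := by
      intro t ht
      have h1 := ROD_R_eq θ (t := t) (by linarith)
      have h2 := (hc t ht.le).2
      rw [← h1] at h2
      have h3 : 0 < t * (t + 2) := by positivity
      by_contra h4
      push Not at h4
      have := mul_pos h3 h4
      linarith
    have hanti : AntitoneOn ψ (Ici 0) := by
      apply antitoneOn_of_deriv_nonpos (convex_Ici 0) hψs.continuous.continuousOn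
      · exact (hψs.differentiable (by simp)).differentiableOn
      · intro t ht
        rw [interior_Ici, mem_Ioi] at ht
        rw [hψ']
        exact hRneg t ht
    constructor
    · intro t ht
      rcases le_total s t with h | h
      · rw [hψ0 t h]
      · have h1 := hanti (mem_Ici.2 ht) (mem_Ici.2 hs.le) h
        rwa [hψ0 s le_rfl] at h1
    · have h1 := intervalIntegral.integral_mul_deriv_eq_deriv_mul (a := 0) (b := s) (u := ψ)
        (v := fun t => t) (u' := ROD_R θ) (v' := fun _ => 1) (fun t _ => hψd t)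
        (fun t _ => hasDerivAt_id t) (hRc.intervalIntegrable _ _)
        (continuous_const.intervalIntegrable _ _)
      simp only [mul_one, hψ0 s le_rfl, zero_mul, mul_zero, sub_zero, zero_sub] at h1
      rw [h1, ← intervalIntegral.integral_neg]
      have h2 : ∫ t in (0 : ℝ)..s, -(ROD_R θ t * t) ≤ ∫ _t in (0 : ℝ)..s, c / 2 := by
        apply intervalIntegral.integral_mono_on hs.le
        · exact ((hRc.mul continuous_id).neg).intervalIntegrable _ _
        · exact continuous_const.intervalIntegrable _ _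
        · intro t ht
          rw [ROD_R_eq2 θ (by linarith [ht.1])]
          have h3 := (hc t ht.1).1
          have h4 : 0 < t + 2 := by linarith [ht.1]
          rw [← neg_div, div_le_div_iff₀ h4 (by norm_num)]
          nlinarith [ht.1]
      refine h2.trans (le_of_eq ?_)
      rw [intervalIntegral.integral_const, smul_eq_mul, sub_zero]
      ring

end Pool.Agent.QU
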